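import Pool.Agent.TH588.UQ.Dense

/-!
# Undecidability with one universal quantifier over `ℚ`
-/

set_option autoImplicit false

namespace Pool.Agent.TH588.UQ

open Pool.Agent.H528R2
open Pool.Agent.Helper707.Rel (Sys)
open Pool.Agent.Helper707.Num (exists_sys)
open Nat.Partrec

/-- a generalised Collatz map to whose halting problem all recursively enumerable sets reduce -/
theorem exists_universal_sys : ∃ (Y : Sys) (S p : ℕ), 0 < Y.m ∧
    ∀ P : ℕ → Prop, REPred P → ∃ h : ℕ → ℕ, Computable h ∧ ∀ a, Y.Halts (S * p ^ h a) ↔ P a := by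
  let f : List.Vector ℕ 2 → ℕ := fun v =>
    if (Code.evaln v.head (Denumerable.ofNat Code v.tail.head) 0).isSome then 0 else 1
  have hf : Primrec f := by
    have h1 : Primrec fun v : List.Vector ℕ 2 =>
        Code.evaln v.head (Denumerable.ofNat Code v.tail.head) 0 := by
      have h2 : Primrec fun v : List.Vector ℕ 2 =>
          (((v.head, Denumerable.ofNat Code v.tail.head), 0) : (ℕ × Code) × ℕ) :=
        Primrec.pair (Primrec.pair Primrec.vector_head
          ((Primrec.ofNat Code).comp (Primrec.vector_head.comp Primrec.vector_tail)))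
          (Primrec.const 0)
      exact Code.primrec_evaln.comp h2
    have h3 : Primrec fun v : List.Vector ℕ 2 =>
        (Code.evaln v.head (Denumerable.ofNat Code v.tail.head) 0).isSome :=
      Primrec.option_isSome.comp h1
    exact Primrec.ite (Primrec.eq.comp h3 (Primrec.const true)) (Primrec.const 0) (Primrec.const 1)
  obtain ⟨Y, S, p, hm, h⟩ := exists_sys (Nat.Primrec'.of_prim hf)
  refine ⟨Y, S, p, hm, fun P hP => ?_⟩
  have h1 : ∀ c : Code, (Code.eval c 0).Dom ↔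
      ∃ k, f (k ::ᵥ (Encodable.encode c) ::ᵥ List.Vector.nil) = 0 := by
    intro c
    have h2 : ∀ k, f (k ::ᵥ (Encodable.encode c) ::ᵥ List.Vector.nil) = 0 ↔
        (Code.evaln k c 0).isSome = true := by
      intro k
      simp only [f, List.Vector.head_cons, List.Vector.tail_cons, Denumerable.ofNat_encode]
      split_ifs with h <;> simp [h]
    simp only [h2]
    rw [Part.dom_iff_mem]
    constructor
    · rintro ⟨y, hy⟩
      obtain ⟨k, hk⟩ := Code.evaln_complete.1 hy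
      exact ⟨k, Option.isSome_iff_exists.2 ⟨y, hk⟩⟩
    · rintro ⟨k, hk⟩
      obtain ⟨y, hy⟩ := Option.isSome_iff_exists.1 hk
      exact ⟨y, Code.evaln_complete.2 ⟨k, hy⟩⟩
  have h2 : Partrec fun w : ℕ => (Part.assert (P w.unpair.1) fun _ => Part.some (0 : ℕ)) := by
    have h3 : Partrec fun w : ℕ => Part.assert (P w.unpair.1) fun _ => Part.some () :=
      hP.comp (Computable.fst.comp Computable.unpair)
    refine (Partrec.map h3 (Computable.const (0 : ℕ)).to₂).of_eq fun a => ?_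
    apply Part.ext
    intro y
    simp only [Part.mem_map_iff, Part.mem_assert_iff, Part.mem_some_iff]
    exact ⟨fun ⟨_, ⟨h, _⟩, e⟩ => ⟨h, e.symm⟩, fun ⟨h, e⟩ => ⟨(), ⟨h, trivial⟩, e.symm⟩⟩
  obtain ⟨c, hc⟩ := Code.exists_code.1 (Partrec.nat_iff.1 h2)
  refine ⟨fun z => Encodable.encode (Code.curry c z), ?_, fun z => ?_⟩
  · exact Computable.encode.comp
      ((Code.primrec₂_curry.comp (Primrec.const c) Primrec.id).to_comp)
  · rw [h, ← h1, Code.eval_curry, hc]
    simp [Part.assert]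

theorem computable_pow {f : ℕ → ℕ} (hf : Computable f) (b : ℕ) : Computable fun a => b ^ f a := by
  have h : Primrec₂ (fun x y : ℕ => x ^ y) := Primrec₂.unpaired'.1 Nat.Primrec.pow
  exact h.to_comp.comp (Computable.const b) hf

theorem computable_mul {f : ℕ → ℕ} (hf : Computable f) (b : ℕ) : Computable fun a => b * f a :=
  (Primrec.nat_mul.to_comp).comp (Computable.const b) hf

/-- The main theorem. -/
theorem main : ∃ (n : ℕ) (F : MvPolynomial (Fin 2 ⊕ Fin n) ℤ), F.totalDegree ≤ 4 ∧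
    ∀ P : ℕ → Prop, REPred P → ∃ g : ℕ → ℕ, Computable g ∧ ∀ a : ℕ,
      (¬ P a → ∀ t : ℚ, ∃ x : Fin n → ℚ,
        MvPolynomial.aeval (Sum.elim ![(g a : ℚ), t] x) F = 0) ∧
      (P a → (∃ t : ℕ, Squarefree t ∧ ∀ x : Fin n → ℚ,
          MvPolynomial.aeval (Sum.elim ![(g a : ℚ), (t : ℚ)] x) F ≠ 0) ∧
        ∀ u v : ℚ, u < v → ∃ t : ℚ, u < t ∧ t < v ∧ ∀ x : Fin n → ℚ,
          MvPolynomial.aeval (Sum.elim ![(g a : ℚ), t] x) F ≠ 0) := by
  obtain ⟨Y, S, p, hm, hY⟩ := exists_universal_sys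
  obtain ⟨r, hr⟩ := H528R3.DioQ.poly (dio_RR Y)
  obtain ⟨F, hF, -, hFR⟩ := hr r le_rfl
  refine ⟨r, F, hF, fun P hP => ?_⟩
  obtain ⟨h, hh, hhP⟩ := hY P hP
  refine ⟨fun a => 11 ^ (S * p ^ h a),
    computable_pow (computable_mul (computable_pow hh p) S) 11, fun a => ?_⟩
  have key : ∀ t : ℚ, RR Y (11 ^ (S * p ^ h a)) t ↔ ∃ x : Fin r → ℚ,
      MvPolynomial.aeval (Sum.elim ![((11 ^ (S * p ^ h a) : ℕ) : ℚ), t] x) F = 0 := by
    intro t
    have := hFR ![((11 ^ (S * p ^ h a) : ℕ) : ℚ), t]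
    simp only [Matrix.cons_val_zero, Matrix.cons_val_one] at this
    rw [← this]
    push_cast
    rfl
  refine ⟨fun hPa t => ?_, fun hPa => ?_⟩
  · rw [← key]
    exact RR_all Y _ hm (fun hH => hPa ((hhP a).1 hH)) t
  · obtain ⟨d, hd, hR⟩ := RR_not Y _ ((hhP a).2 hPa)
    have hR' : ∀ t : ℚ, t ≠ 0 → Good d t → ∀ x : Fin r → ℚ,
        MvPolynomial.aeval (Sum.elim ![((11 ^ (S * p ^ h a) : ℕ) : ℚ), t] x) F ≠ 0 := by
      intro t ht hg x hx
      exact hR t ht hg ((key t).2 ⟨x, hx⟩)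
    refine ⟨⟨d, hd, hR' d (by exact_mod_cast hd.ne_zero) (good_self hd)⟩, fun u v huv => ?_⟩
    obtain ⟨t, h1, h2, h3, h4⟩ := dense_good hd huv
    exact ⟨t, h1, h2, hR' t h3 h4⟩

end Pool.Agent.TH588.UQ
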