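import Pool.Agent.TH588.UQ.Mach

/-!
# Rational numbers with prescribed valuations are dense
-/

set_option autoImplicit false

namespace Pool.Agent.TH588.UQ

open Pool.Agent.H528R2

/-- the valuations of `t` at the inert primes are those of `d`, up to even numbers at the primes
which do not divide `d` -/
def Good (d : ℕ) (t : ℚ) : Prop := ∀ q, Inert q → (q ∣ d → padicValRat q t = 1) ∧
  (¬ q ∣ d → ¬ Odd (padicValRat q t))

theorem val_one_add {d k q : ℕ} (hq : q.Prime) (hd : q ∣ d) :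
    padicValRat q (((1 + d * k : ℕ)) : ℚ) = 0 := by
  rw [padicValRat.of_nat, padicValNat.eq_zero_of_not_dvd]
  · rfl
  · intro h
    have h1 : q ∣ 1 := (Nat.dvd_add_left (hd.mul_right k)).1 h
    exact hq.one_lt.ne' (Nat.dvd_one.1 h1)

theorem good_self {d : ℕ} (hd : Squarefree d) : Good d (d : ℚ) := by
  intro q hq
  rw [ti_val_squarefree hd hq.1]
  constructor
  · intro h; rw [if_pos h]
  · intro h; rw [if_neg h]; decide

theorem good_mul {d : ℕ} (hd : Squarefree d) (k l : ℕ) :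
    Good d ((d : ℚ) * (((1 + d * k : ℕ) : ℚ) / ((1 + d * l : ℕ) : ℚ)) ^ 2) := by
  intro q hq
  have hd0 : (d : ℚ) ≠ 0 := by exact_mod_cast hd.ne_zero
  have hk : (((1 + d * k : ℕ)) : ℚ) ≠ 0 := by
    have : 1 + d * k ≠ 0 := by omega
    exact_mod_cast this
  have hl : (((1 + d * l : ℕ)) : ℚ) ≠ 0 := by
    have : 1 + d * l ≠ 0 := by omega
    exact_mod_cast this
  rw [val_mul hq.1 hd0 (pow_ne_zero _ (div_ne_zero hk hl)), val_pow hq.1, val_div hq.1 hk hl,
    ti_val_squarefree hd hq.1]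
  constructor
  · intro h
    rw [if_pos h, val_one_add hq.1 h, val_one_add hq.1 h]
    simp
  · intro h
    rw [if_neg h, zero_add, Int.not_odd_iff_even]
    push_cast
    exact even_two_mul _

theorem Good.neg {d : ℕ} {t : ℚ} (h : Good d t) : Good d (-t) := by
  intro q hq
  rw [padicValRat.neg]
  exact h q hq

theorem dense_pos {d : ℕ} (hd : Squarefree d) {u v : ℚ} (hu : 0 ≤ u) (huv : u < v) :
    ∃ t, u < t ∧ t < v ∧ t ≠ 0 ∧ Good d t := by
  have hd0 : 0 < d := Nat.pos_of_ne_zero hd.ne_zero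
  have hdR : (0 : ℝ) < d := by exact_mod_cast hd0
  set α : ℝ := Real.sqrt (u / d) with hα
  set β : ℝ := Real.sqrt (v / d) with hβ
  have hu' : (0 : ℝ) ≤ u / d := by
    have : (0 : ℝ) ≤ (u : ℝ) := by exact_mod_cast hu
    positivity
  have hv' : (0 : ℝ) ≤ v / d := by
    have : (0 : ℝ) ≤ (v : ℝ) := by exact_mod_cast hu.trans huv.le
    positivity
  have hαβ : α < β := by
    apply Real.sqrt_lt_sqrt hu'
    have : (u : ℝ) < v := by exact_mod_cast huv
    exact div_lt_div_of_pos_right this hdR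
  have hα0 : 0 ≤ α := Real.sqrt_nonneg _
  -- a small step
  obtain ⟨l, hl⟩ : ∃ l : ℕ, (d : ℝ) / (β - α) < 1 + d * l := by
    obtain ⟨l, hl⟩ := exists_nat_gt ((d : ℝ) / (β - α))
    refine ⟨l, ?_⟩
    have h1 : (l : ℝ) ≤ d * l := by
      have : (1 : ℝ) ≤ d := by exact_mod_cast hd0
      nlinarith [Nat.cast_nonneg (α := ℝ) l]
    linarith
  have hL : (0 : ℝ) < 1 + d * l := by positivity
  have hstep : (d : ℝ) / (1 + d * l) < β - α := by
    rw [div_lt_iff₀ hL]
    rw [div_lt_iff₀ (by linarith)] at hl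
    linarith
  -- the first multiple
  have hex : ∃ k : ℕ, α < (1 + d * k) / (1 + d * l) := by
    obtain ⟨k, hk⟩ := exists_nat_gt (α * (1 + d * l))
    refine ⟨k, ?_⟩
    rw [lt_div_iff₀ hL]
    have h1 : (k : ℝ) ≤ d * k := by
      have : (1 : ℝ) ≤ d := by exact_mod_cast hd0
      nlinarith [Nat.cast_nonneg (α := ℝ) k]
    linarith
  classical
  have hk1 := Nat.find_spec hex
  set k := Nat.find hex with hk
  have hk2 : ((1 : ℝ) + d * k) / (1 + d * l) < β := by
    rcases Nat.eq_zero_or_pos k with h0 | h0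
    · rw [h0]
      have h1 : ((1 : ℝ) + d * (0 : ℕ)) / (1 + d * l) ≤ d / (1 + d * l) := by
        apply div_le_div_of_nonneg_right _ hL.le
        have : (1 : ℝ) ≤ d := by exact_mod_cast hd0
        simpa using this
      linarith
    · have h1 := Nat.find_min hex (m := k - 1) (by omega)
      push Not at h1
      have h2 : ((k - 1 : ℕ) : ℝ) = k - 1 := by
        rw [Nat.cast_sub h0]; simp
      rw [h2] at h1
      have h3 : ((1 : ℝ) + d * k) / (1 + d * l) =
          (1 + d * (k - 1)) / (1 + d * l) + d / (1 + d * l) := by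
        rw [← add_div]; congr 1; ring
      rw [h3]
      linarith
  set r : ℚ := ((1 + d * k : ℕ) : ℚ) / ((1 + d * l : ℕ) : ℚ) with hr
  have hrR : (r : ℝ) = (1 + d * k) / (1 + d * l) := by
    rw [hr]; push_cast; rfl
  have hr0 : (0 : ℝ) < r := by rw [hrR]; positivity
  have e1 : (u : ℝ) < d * (r : ℝ) ^ 2 := by
    have h1 : α ^ 2 < (r : ℝ) ^ 2 := by
      rw [hrR]; exact pow_lt_pow_left₀ hk1 hα0 two_ne_zero
    rw [hα, Real.sq_sqrt hu', div_lt_iff₀ hdR] at h1
    linarith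
  have e2 : d * (r : ℝ) ^ 2 < v := by
    have h1 : (r : ℝ) ^ 2 < β ^ 2 := by
      rw [hrR]
      rw [hrR] at hr0
      exact pow_lt_pow_left₀ hk2 hr0.le two_ne_zero
    rw [hβ, Real.sq_sqrt hv', lt_div_iff₀ hdR] at h1
    linarith
  refine ⟨(d : ℚ) * r ^ 2, by exact_mod_cast e1, by exact_mod_cast e2, ?_, good_mul hd k l⟩
  have : r ≠ 0 := by
    intro h0
    rw [h0] at hr0
    simp at hr0
  have hdq : (d : ℚ) ≠ 0 := by exact_mod_cast hd.ne_zero
  exact mul_ne_zero hdq (pow_ne_zero _ this)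

theorem dense_good {d : ℕ} (hd : Squarefree d) {u v : ℚ} (huv : u < v) :
    ∃ t, u < t ∧ t < v ∧ t ≠ 0 ∧ Good d t := by
  rcases lt_or_ge 0 v with h | h
  · obtain ⟨t, h1, h2, h3, h4⟩ := dense_pos hd (u := max u 0) (v := v) (le_max_right _ _)
      (max_lt huv h)
    exact ⟨t, (le_max_left _ _).trans_lt h1, h2, h3, h4⟩
  · obtain ⟨t, h1, h2, h3, h4⟩ := dense_pos hd (u := -v) (v := -u) (by linarith) (by linarith)
    exact ⟨-t, by linarith, by linarith, neg_ne_zero.2 h3, h4.neg⟩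

end Pool.Agent.TH588.UQ
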