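import Pool.Agent.TH588.UQ.Mem
import Pool.Agent.Helper707.Rel
import Pool.Agent.H528R3.PolyQ

/-!
# The relations are Diophantine over `ℚ`
-/

set_option autoImplicit false

namespace Pool.Agent.TH588.UQ

open Pool.Agent.H528R2 Pool.Agent.H528R2.Chain Pool.Agent.H528R2.Dio
open Pool.Agent.Helper707.Rel (Sys)

/-- The relation attached to a generalised Collatz map: the set of cells coded by `t` does not
contain the cell located by `c, 1`, or it contains a cell of a number which is not a halting one,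
and it does not contain the cell of the next number at the next time. -/
def RR (Y : Sys) (c t : ℚ) : Prop := t = 0 ∨ NM t c 1 ∨ ∃ r ∈ List.range Y.m, Y.H r = false ∧
  ∃ x y : ℚ, GeV 11 x ∧ GeV 29 y ∧ MM t (x ^ Y.m * 11 ^ r) y ∧
    NM t (x ^ Y.a r * 11 ^ Y.e r) (29 * y)

theorem DQ.false : DQ (fun _ => False) :=
  (DQ.eq PF.zero PF.one).congr fun _ => by simp

theorem dq_list {α : Type*} (l : List α) (P : α → (ℕ → ℚ) → Prop) (h : ∀ a, DQ (P a)) :
    DQ (fun v => ∃ a ∈ l, P a v) := by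
  induction l with
  | nil => exact DQ.false.congr fun v => by simp
  | cons a l ih =>
    refine ((h a).or ih).congr fun v => ?_
    simp

theorem dq_geV {p : ℕ} (hp : Inert p) {f : (ℕ → ℚ) → ℚ} (hf : PF f) :
    DQ (fun v => GeV p (f v)) := by
  refine DQ.congr ?_ (fun v => geV_iff hp (f v))
  exact (DQ.ne hf PF.zero).and (dq_test (PF.nat p) ((PF.nat p).mul hf))

theorem dq_eqV {p : ℕ} (hp : Inert p) {f g : (ℕ → ℚ) → ℚ} (hf : PF f) (hg : PF g) :
    DQ (fun v => EqV p (f v) (g v)) := by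
  refine DQ.congr ?_ (fun v => eqV_iff hp (f v) (g v))
  refine (DQ.ne hg PF.zero).and (DQ.ex (DQ.ex ?_))
  refine (DQ.eq ((PF.var _).mul hg.shift.shift) hf.shift.shift).and ?_
  refine (DQ.eq ((PF.var _).mul (PF.var _)) PF.one).and ?_
  exact (dq_test (PF.nat p) ((PF.nat p).mul (PF.var _))).and
    (dq_test (PF.nat p) ((PF.nat p).mul (PF.var _)))

theorem idx_iff (w : ℚ) : Idx w ↔ ∃ z y a b : ℚ, On z y ∧ (IsSquare z ∨ IsSquare (5 * z)) ∧
    Oct z y a b ∧ w * a = 1 := by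
  unfold Idx
  constructor
  · rintro ⟨m, hm, rfl⟩
    have g := (gam_iff _ _).1 ⟨m, hm, rfl, rfl⟩
    exact ⟨zz m, yy m, zz (8 * m), yy (8 * m), g.1, g.2, (oct_iff hm _ _).2 ⟨rfl, rfl⟩,
      one_div_mul_cancel (Chain.zz_ne (eight_ne hm))⟩
  · rintro ⟨z, y, a, b, h1, h2, h3, h4⟩
    obtain ⟨m, hm, rfl, rfl⟩ := (gam_iff _ _).2 ⟨h1, h2⟩
    obtain ⟨rfl, rfl⟩ := (oct_iff hm _ _).1 h3
    exact ⟨m, hm, eq_one_div_of_mul_eq_one_left h4⟩

theorem dq_idx {f : (ℕ → ℚ) → ℚ} (hf : PF f) : DQ (fun v => Idx (f v)) := by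
  refine DQ.congr ?_ (fun v => idx_iff (f v))
  refine DQ.ex (DQ.ex (DQ.ex (DQ.ex ?_)))
  refine (dq_On (PF.var _) (PF.var _)).and ?_
  refine ((DQ.isSquare (PF.var _)).or (DQ.isSquare ((PF.lit 5).mul (PF.var _)))).and ?_
  refine (dq_Oct (PF.var _) (PF.var _) (PF.var _) (PF.var _)).and ?_
  exact DQ.eq (hf.shift.shift.shift.shift.mul (PF.var _)) PF.one

theorem dq_loc (a b : ℕ) {w X Y : (ℕ → ℚ) → ℚ} (hw : PF w) (hX : PF X) (hY : PF Y) :
    DQ (fun v => Loc a b (w v) (X v) (Y v)) := by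
  unfold Loc
  refine (dq_idx hw).and ((dq_eqV inert11 hw ?_).and (dq_eqV inert29 hw ?_))
  · exact (hX.pow 2).mul ((PF.lit 11).pow _)
  · exact (hY.pow 2).mul ((PF.lit 29).pow _)

theorem dq_NN {f : (ℕ → ℚ) → ℚ} (hf : PF f) : DQ (fun v => NN (f v)) := by
  unfold NN
  refine DQ.ex (DQ.ex (DQ.ex (DQ.ex ?_)))
  refine (DQ.eq hf.shift.shift.shift.shift ((PF.lit 3).add ((PF.lit 8).mul (PF.var _)))).and ?_
  exact DQ.eq (((PF.lit 7).mul ((PF.var _).pow 2)).add (PF.lit 12))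
    ((((PF.var _).pow 2).add ((PF.var _).pow 2)).add ((PF.var _).pow 2))

theorem dq_sub {f g : (ℕ → ℚ) → ℚ} (hf : PF f) (hg : PF g) : DQ (fun v => Sub (f v) (g v)) := by
  unfold Sub
  refine DQ.ex ?_
  exact (dq_test hf.shift (PF.var _)).and
    (dq_test (hf.shift.mul hg.shift) (PF.one.sub (PF.var _)))

theorem dq_test_hst {s t w : (ℕ → ℚ) → ℚ} (hs : PF s) (ht : PF t) (hw : PF w) :
    DQ (fun v => Test (s v) (hst (t v) (w v) 1)) := by
  refine DQ.congr (R := fun v => ∃ h, h = hst (t v) (w v) 1 ∧ Test (s v) h) ?_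
    (fun v => by simp)
  refine DQ.ex ?_
  exact (dq_hst ht.shift hw.shift PF.one (PF.var _)).and (dq_test hs.shift (PF.var _))

theorem dq_test_prod {t w w₁ w₂ : (ℕ → ℚ) → ℚ} (ht : PF t) (hw : PF w) (hw₁ : PF w₁)
    (hw₂ : PF w₂) :
    DQ (fun v => Test (t v) (hst (t v) (w v) 1 * nrm (w₁ v) * nrm (w₂ v))) := by
  refine DQ.congr (R := fun v => ∃ h h₁ h₂, h = hst (t v) (w v) 1 ∧ h₁ = nrm (w₁ v) ∧
    h₂ = nrm (w₂ v) ∧ Test (t v) (h * h₁ * h₂)) ?_ (fun v => by simp)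
  refine DQ.ex (DQ.ex (DQ.ex ?_))
  refine (dq_hst ht.shift.shift.shift hw.shift.shift.shift PF.one (PF.var _)).and ?_
  refine (dq_nrm hw₁.shift.shift.shift (PF.var _)).and ?_
  refine (dq_nrm hw₂.shift.shift.shift (PF.var _)).and ?_
  exact dq_test ht.shift.shift.shift (((PF.var _).mul (PF.var _)).mul (PF.var _))

theorem dq_NM {t X Y : (ℕ → ℚ) → ℚ} (ht : PF t) (hX : PF X) (hY : PF Y) :
    DQ (fun v => NM (t v) (X v) (Y v)) := by
  unfold NM
  refine DQ.ex (DQ.ex (DQ.ex ?_))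
  replace ht := ht.shift.shift.shift
  replace hX := hX.shift.shift.shift
  replace hY := hY.shift.shift.shift
  refine (dq_loc 1 1 (PF.var _) hX hY).and ?_
  refine (dq_loc 0 1 (PF.var _) hX hY).and ?_
  refine (dq_loc 1 0 (PF.var _) hX hY).and ?_
  exact dq_test_prod ht (PF.var _) (PF.var _) (PF.var _)

theorem dq_MM {t X Y : (ℕ → ℚ) → ℚ} (ht : PF t) (hX : PF X) (hY : PF Y) :
    DQ (fun v => MM (t v) (X v) (Y v)) := by
  unfold MM
  refine DQ.ex (DQ.ex (DQ.ex (DQ.ex ?_)))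
  replace ht := ht.shift.shift.shift.shift
  replace hX := hX.shift.shift.shift.shift
  replace hY := hY.shift.shift.shift.shift
  refine (DQ.ne (PF.var _) PF.zero).and ?_
  refine (dq_NN (PF.var _)).and ?_
  refine (dq_sub (PF.var _) ht).and ?_
  refine (dq_loc 1 1 (PF.var _) hX hY).and ?_
  refine (dq_loc 0 1 (PF.var _) hX hY).and ?_
  refine (dq_loc 1 0 (PF.var _) hX hY).and ?_
  refine (dq_test (PF.var _) (PF.var _)).and ?_
  exact (dq_test_hst (PF.var _) ht (PF.var _)).and (dq_test_hst (PF.var _) ht (PF.var _))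

theorem dq_RR (Y : Sys) {c t : (ℕ → ℚ) → ℚ} (hc : PF c) (ht : PF t) :
    DQ (fun v => RR Y (c v) (t v)) := by
  unfold RR
  refine (DQ.eq ht PF.zero).or ((dq_NM ht hc PF.one).or (dq_list _ _ fun r => ?_))
  by_cases hr : Y.H r = false
  · refine DQ.congr (R := fun v => ∃ x y : ℚ, GeV 11 x ∧ GeV 29 y ∧
      MM (t v) (x ^ Y.m * 11 ^ r) y ∧ NM (t v) (x ^ Y.a r * 11 ^ Y.e r) (29 * y)) ?_
      (fun v => by simp [hr])
    refine DQ.ex (DQ.ex ?_)
    replace ht := ht.shift.shift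
    refine (dq_geV inert11 (PF.var _)).and ?_
    refine (dq_geV inert29 (PF.var _)).and ?_
    refine (dq_MM ht (((PF.var _).pow _).mul ((PF.lit 11).pow _)) (PF.var _)).and ?_
    exact dq_NM ht (((PF.var _).pow _).mul ((PF.lit 11).pow _)) ((PF.lit 29).mul (PF.var _))
  · exact DQ.false.congr fun v => by simp [hr]

theorem dio_RR (Y : Sys) : DioQ 2 (fun x => RR Y (x 0) (x 1)) :=
  DQ.dioQ (dq_RR Y (PF.var _) (PF.var _))

end Pool.Agent.TH588.UQ
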