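import Pool.Agent.H528R2.NormVal
import Pool.Agent.H528R2.NormRep
import Pool.Agent.H591R2.ThreeSq

/-!
# A certificate that a rational number is divisible an odd number of times by an inert prime
-/

set_option autoImplicit false

namespace Pool.Agent.TH588.UQ

open Pool.Agent.H528R2

/-- the certificate -/
def NN (s : ℚ) : Prop :=
  ∃ x a b c : ℚ, s = 3 + 8 * x ∧ 7 * x ^ 2 + 12 = a ^ 2 + b ^ 2 + c ^ 2

theorem sq8 (a : ℤ) : (a % 2 = 0 ∧ (a ^ 2 % 8 = 0 ∨ a ^ 2 % 8 = 4)) ∨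
    (a % 2 = 1 ∧ a ^ 2 % 8 = 1) := by
  have h : a % 8 = 0 ∨ a % 8 = 1 ∨ a % 8 = 2 ∨ a % 8 = 3 ∨ a % 8 = 4 ∨ a % 8 = 5 ∨ a % 8 = 6 ∨
      a % 8 = 7 := by omega
  rcases h with h | h | h | h | h | h | h | h <;>
    [left; right; left; right; left; right; left; right] <;>
    refine ⟨by omega, ?_⟩ <;> rw [pow_two, Int.mul_emod, h] <;> norm_num

theorem descent1 (k : ℕ) : ∀ X D A B C : ℤ, 7 * X ^ 2 + 12 * D ^ 2 = A ^ 2 + B ^ 2 + C ^ 2 →
    (2 : ℤ) ^ k ∣ D → (2 : ℤ) ^ k ∣ X := by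
  induction k with
  | zero => intro X D A B C _ _; simp
  | succ k ih =>
    intro X D A B C h hD
    obtain ⟨d, rfl⟩ := hD
    set D' : ℤ := 2 ^ k * d with hD'
    have e1 : (2 : ℤ) ^ (k + 1) * d = 2 * D' := by rw [hD', pow_succ]; ring
    rw [e1] at h
    have h' : 7 * X ^ 2 + 48 * D' ^ 2 = A ^ 2 + B ^ 2 + C ^ 2 := by linarith
    have hX := sq8 X
    have hA := sq8 A
    have hB := sq8 B
    have hC := sq8 C
    have hX0 : X % 2 = 0 := by
      generalize X ^ 2 = x2 at *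
      generalize A ^ 2 = a2 at *
      generalize B ^ 2 = b2 at *
      generalize C ^ 2 = c2 at *
      generalize D' ^ 2 = d2 at *
      omega
    have hABC : A % 2 = 0 ∧ B % 2 = 0 ∧ C % 2 = 0 := by
      generalize X ^ 2 = x2 at *
      generalize A ^ 2 = a2 at *
      generalize B ^ 2 = b2 at *
      generalize C ^ 2 = c2 at *
      generalize D' ^ 2 = d2 at *
      omega
    obtain ⟨x, rfl⟩ := Int.dvd_of_emod_eq_zero hX0
    obtain ⟨a, rfl⟩ := Int.dvd_of_emod_eq_zero hABC.1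
    obtain ⟨b, rfl⟩ := Int.dvd_of_emod_eq_zero hABC.2.1
    obtain ⟨c, rfl⟩ := Int.dvd_of_emod_eq_zero hABC.2.2
    have h2 : 7 * x ^ 2 + 12 * D' ^ 2 = a ^ 2 + b ^ 2 + c ^ 2 := by linarith
    obtain ⟨y, hy⟩ := ih x D' a b c h2 ⟨d, rfl⟩
    exact ⟨y, by rw [hy, pow_succ]; ring⟩

theorem descent2 {n : ℤ} (hn : n % 8 = 3) (k : ℕ) : ∀ E C F : ℤ, n * E ^ 2 = C ^ 2 - 2 * F ^ 2 →
    (2 : ℤ) ^ k ∣ E := by
  obtain ⟨l, hl⟩ : ∃ l, n = 8 * l + 3 := ⟨n / 8, by omega⟩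
  induction k with
  | zero => intro E C F _; simp
  | succ k ih =>
    intro E C F h
    have hE := sq8 E
    have hC := sq8 C
    have hF := sq8 F
    have h' : 8 * (l * E ^ 2) + 3 * E ^ 2 = C ^ 2 - 2 * F ^ 2 := by rw [← h, hl]; ring
    have hall : E % 2 = 0 ∧ C % 2 = 0 ∧ F % 2 = 0 := by
      generalize l * E ^ 2 = y at *
      generalize E ^ 2 = e2 at *
      generalize C ^ 2 = c2 at *
      generalize F ^ 2 = f2 at *
      omega
    obtain ⟨e, rfl⟩ := Int.dvd_of_emod_eq_zero hall.1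
    obtain ⟨c, rfl⟩ := Int.dvd_of_emod_eq_zero hall.2.1
    obtain ⟨f, rfl⟩ := Int.dvd_of_emod_eq_zero hall.2.2
    have h2 : n * e ^ 2 = c ^ 2 - 2 * f ^ 2 := by linarith
    obtain ⟨y, hy⟩ := ih e c f h2
    exact ⟨y, by rw [hy, pow_succ]; ring⟩

theorem eq_zero_of_pow_dvd {E : ℤ} (h : ∀ k : ℕ, (2 : ℤ) ^ k ∣ E) : E = 0 := by
  by_contra hE
  have h1 := Int.le_of_dvd (abs_pos.2 hE) ((dvd_abs _ _).2 (h E.natAbs))
  have h2 : (E.natAbs : ℤ) < 2 ^ E.natAbs := by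
    exact_mod_cast (Nat.lt_two_pow_self (n := E.natAbs))
  rw [Int.natCast_natAbs] at h2
  omega

/-- the elements which satisfy the certificate, `2`-adically -/
theorem NN.form {s : ℚ} (h : NN s) : ∃ N M : ℤ, s = N / M ∧ M ≠ 0 ∧ (N * M) % 8 = 3 := by
  obtain ⟨x, a, b, c, hs, h⟩ := h
  set D : ℕ := x.den * a.den * b.den * c.den with hD
  have hD0 : D ≠ 0 := by
    rw [hD]
    exact mul_ne_zero (mul_ne_zero (mul_ne_zero x.den_nz a.den_nz) b.den_nz) c.den_nz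
  obtain ⟨k, m, hm, hkm⟩ := Nat.exists_eq_two_pow_mul_odd hD0
  have ex : ((x.num * (a.den * b.den * c.den) : ℤ) : ℚ) = D * x := by
    rw [hD]; push_cast
    have := Rat.mul_den_eq_num x
    rw [← this]; ring
  have ea : ((a.num * (x.den * b.den * c.den) : ℤ) : ℚ) = D * a := by
    rw [hD]; push_cast
    have := Rat.mul_den_eq_num a
    rw [← this]; ring
  have eb : ((b.num * (x.den * a.den * c.den) : ℤ) : ℚ) = D * b := by
    rw [hD]; push_cast
    have := Rat.mul_den_eq_num b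
    rw [← this]; ring
  have ec : ((c.num * (x.den * a.den * b.den) : ℤ) : ℚ) = D * c := by
    rw [hD]; push_cast
    have := Rat.mul_den_eq_num c
    rw [← this]; ring
  set X : ℤ := x.num * (a.den * b.den * c.den)
  set A : ℤ := a.num * (x.den * b.den * c.den)
  set B : ℤ := b.num * (x.den * a.den * c.den)
  set C : ℤ := c.num * (x.den * a.den * b.den)
  have h1 : 7 * X ^ 2 + 12 * (D : ℤ) ^ 2 = A ^ 2 + B ^ 2 + C ^ 2 := by
    have : (7 * (X : ℚ) ^ 2 + 12 * (D : ℚ) ^ 2) = (A : ℚ) ^ 2 + (B : ℚ) ^ 2 + (C : ℚ) ^ 2 := by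
      rw [ex, ea, eb, ec]
      have : (D : ℚ) ^ 2 * (7 * x ^ 2 + 12) = (D : ℚ) ^ 2 * (a ^ 2 + b ^ 2 + c ^ 2) := by rw [h]
      linarith
    exact_mod_cast this
  have h2 : (2 : ℤ) ^ k ∣ (D : ℤ) := ⟨(m : ℤ), by rw [hkm]; push_cast; ring⟩
  obtain ⟨Y, hY⟩ := descent1 k X D A B C h1 h2
  have hm0 : (m : ℤ) ≠ 0 := by
    have := hm.pos
    omega
  refine ⟨3 * m + 8 * Y, m, ?_, hm0, ?_⟩
  · have hmq : (m : ℚ) ≠ 0 := by exact_mod_cast hm0
    have h3 : (D : ℚ) * x = 2 ^ k * Y := by rw [← ex, hY]; push_cast; ring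
    have h4 : (D : ℚ) = 2 ^ k * m := by rw [hkm]; push_cast; ring
    have h5 : (m : ℚ) * x = Y := by
      rw [h4] at h3
      have : (2 : ℚ) ^ k ≠ 0 := by positivity
      apply mul_left_cancel₀ this
      linarith
    rw [hs]
    push_cast
    rw [← h5]
    field_simp
  · obtain ⟨r, hr⟩ := hm
    have h6 := sq8 (m : ℤ)
    have h7 : (m : ℤ) % 2 = 1 := by omega
    have h8 : (m : ℤ) ^ 2 % 8 = 1 := by
      rcases h6 with h6 | h6
      · omega
      · exact h6.2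
    have h9 : (3 * (m : ℤ) + 8 * Y) * m = 3 * (m : ℤ) ^ 2 + 8 * (Y * m) := by ring
    rw [h9]
    generalize (m : ℤ) ^ 2 = m2 at *
    generalize Y * (m : ℤ) = ym at *
    omega

theorem NN.sound {s : ℚ} (h : NN s) : s ≠ 0 ∧ ∃ q, Inert q ∧ Odd (padicValRat q s) := by
  obtain ⟨N, M, hs, hM, h3⟩ := h.form
  have hMq : (M : ℚ) ≠ 0 := by exact_mod_cast hM
  have hN : N ≠ 0 := by rintro rfl; simp at h3
  have hNq : (N : ℚ) ≠ 0 := by exact_mod_cast hN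
  have hs0 : s ≠ 0 := by rw [hs]; exact div_ne_zero hNq hMq
  refine ⟨hs0, ?_⟩
  by_contra hcon
  have hN : IsN s := by
    apply isN_of_even hs0
    intro q hq
    rw [← Int.not_odd_iff_even]
    exact fun h => hcon ⟨q, hq, h⟩
  obtain ⟨-, c, e, hce⟩ := hN
  have hcd : (c.den : ℚ) ≠ 0 := by exact_mod_cast c.den_nz
  have hed : (e.den : ℚ) ≠ 0 := by exact_mod_cast e.den_nz
  have key : (N * M) * ((c.den * e.den : ℤ)) ^ 2 =
      (c.num * e.den * M) ^ 2 - 2 * (e.num * c.den * M) ^ 2 := by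
    have h1 : c * c.den = c.num := Rat.mul_den_eq_num c
    have h2 : e * e.den = e.num := Rat.mul_den_eq_num e
    have h4 : (N : ℚ) = s * M := by rw [hs]; field_simp
    have : ((N : ℚ) * M) * ((c.den : ℚ) * e.den) ^ 2 =
        ((c.num : ℚ) * e.den * M) ^ 2 - 2 * ((e.num : ℚ) * c.den * M) ^ 2 := by
      rw [← h1, ← h2, h4, hce]
      ring
    exact_mod_cast this
  have h0 := eq_zero_of_pow_dvd (fun k => descent2 h3 k _ _ _ key)
  have hcd' : (c.den : ℤ) ≠ 0 := by exact_mod_cast c.den_nz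
  have hed' : (e.den : ℤ) ≠ 0 := by exact_mod_cast e.den_nz
  exact mul_ne_zero hcd' hed' h0

theorem NN.of_int {s : ℤ} (h : s % 16 = 11) : NN (s : ℚ) := by
  obtain ⟨x, hx⟩ : ∃ x, s = 3 + 8 * x := ⟨(s - 3) / 8, by omega⟩
  have hx2 : x % 2 = 1 := by omega
  have h8 : x ^ 2 % 8 = 1 := by
    rcases sq8 x with h6 | h6
    · omega
    · exact h6.2
  obtain ⟨m, hm⟩ : ∃ m : ℕ, (m : ℤ) = 7 * x ^ 2 + 12 :=
    ⟨(7 * x ^ 2 + 12).toNat, Int.toNat_of_nonneg (by positivity)⟩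
  have hm8 : m % 8 = 3 := by
    generalize x ^ 2 = x2 at *
    omega
  obtain ⟨a, b, c, habc⟩ := Pool.Agent.H591R2.three_squares hm8
  refine ⟨x, a, b, c, by rw [hx]; push_cast; ring, ?_⟩
  rw [hm] at habc
  exact_mod_cast habc.symm

end Pool.Agent.TH588.UQ
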