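import Pool.Agent.H528R2.Atoms
import Pool.Agent.H528R2.Obs
import Pool.Agent.H528R2.TestIff
import Pool.Agent.H528R2.CoreB
import Pool.Agent.H528R2.Dio
import Pool.Agent.TH588.UQ.NN

/-!
# Locations: cells of inert primes attached to pairs of natural numbers
-/

set_option autoImplicit false

namespace Pool.Agent.TH588.UQ

open Pool.Agent.H528R2 Pool.Agent.H528R2.Chain Pool.Agent.H528R2.Dio

theorem inert11 : Inert 11 := ⟨by norm_num, Or.inl rfl⟩
theorem inert29 : Inert 29 := ⟨by norm_num, Or.inr rfl⟩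

/-! ### valuations at a fixed prime -/

/-- equality of the valuations at `p` -/
def EqV (p : ℕ) (u v : ℚ) : Prop := u ≠ 0 ∧ v ≠ 0 ∧ padicValRat p u = padicValRat p v

/-- nonzero and integral at `p` -/
def GeV (p : ℕ) (x : ℚ) : Prop := x ≠ 0 ∧ 0 ≤ padicValRat p x

theorem val_self_rat {p q : ℕ} (hq : q.Prime) (hp : p.Prime) :
    padicValRat q (p : ℚ) = if q = p then 1 else 0 := by
  have := Fact.mk hq
  rw [padicValRat.of_nat]
  split_ifs with h
  · subst h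
    rw [padicValNat_self]; rfl
  · have := Fact.mk hp
    rw [padicValNat_primes h]
    rfl

theorem test_prime {p : ℕ} (hp : Inert p) (F : ℚ) : Test (p : ℚ) F ↔ Vge p 1 F := by
  have hp0 : (p : ℚ) ≠ 0 := by exact_mod_cast hp.1.ne_zero
  rw [test_iff hp0]
  constructor
  · intro h
    apply h p hp
    rw [val_self_rat hp.1 hp.1, if_pos rfl]
    exact odd_one
  · intro h q hq hodd
    rw [val_self_rat hq.1 hp.1] at hodd
    split_ifs at hodd with he
    · rw [he]; exact h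
    · exact absurd hodd (by decide)

theorem val_p_mul {p : ℕ} (hp : p.Prime) {y : ℚ} (hy : y ≠ 0) :
    padicValRat p ((p : ℚ) * y) = 1 + padicValRat p y := by
  have hp0 : (p : ℚ) ≠ 0 := by exact_mod_cast hp.ne_zero
  rw [val_mul hp hp0 hy, val_self_rat hp hp, if_pos rfl]

theorem vge_p_mul {p : ℕ} (hp : p.Prime) {y : ℚ} (hy : y ≠ 0) :
    Vge p 1 ((p : ℚ) * y) ↔ 0 ≤ padicValRat p y := by
  have hp0 : (p : ℚ) ≠ 0 := by exact_mod_cast hp.ne_zero
  unfold Vge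
  rw [val_p_mul hp hy]
  constructor
  · rintro (h | h)
    · exact absurd h (mul_ne_zero hp0 hy)
    · omega
  · intro h; right; omega

theorem geV_iff {p : ℕ} (hp : Inert p) (x : ℚ) : GeV p x ↔ x ≠ 0 ∧ Test (p : ℚ) ((p : ℚ) * x) := by
  unfold GeV
  constructor
  · rintro ⟨h1, h2⟩
    exact ⟨h1, (test_prime hp _).2 ((vge_p_mul hp.1 h1).2 h2)⟩
  · rintro ⟨h1, h2⟩
    exact ⟨h1, (vge_p_mul hp.1 h1).1 ((test_prime hp _).1 h2)⟩

theorem eqV_iff {p : ℕ} (hp : Inert p) (u v : ℚ) : EqV p u v ↔ v ≠ 0 ∧ ∃ y y' : ℚ,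
    y * v = u ∧ y * y' = 1 ∧ Test (p : ℚ) ((p : ℚ) * y) ∧ Test (p : ℚ) ((p : ℚ) * y') := by
  constructor
  · rintro ⟨hu, hv, h⟩
    have hy : u / v ≠ 0 := div_ne_zero hu hv
    have hval : padicValRat p (u / v) = 0 := by rw [val_div hp.1 hu hv, h, sub_self]
    refine ⟨hv, u / v, (u / v)⁻¹, div_mul_cancel₀ _ hv, mul_inv_cancel₀ hy, ?_, ?_⟩
    · rw [test_prime hp, vge_p_mul hp.1 hy, hval]
    · rw [test_prime hp, vge_p_mul hp.1 (inv_ne_zero hy), val_inv hp.1, hval, neg_zero]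
  · rintro ⟨hv, y, y', h1, h2, h3, h4⟩
    have hy : y ≠ 0 := by rintro rfl; simp at h2
    have hy' : y' ≠ 0 := by rintro rfl; simp at h2
    have hinv : y' = y⁻¹ := eq_inv_of_mul_eq_one_right h2
    rw [test_prime hp, vge_p_mul hp.1 hy] at h3
    rw [test_prime hp, vge_p_mul hp.1 hy', hinv, val_inv hp.1] at h4
    refine ⟨by rw [← h1]; exact mul_ne_zero hy hv, hv, ?_⟩
    rw [← h1, val_mul hp.1 hy hv]
    omega

/-! ### the values attached to indices -/

/-- the values `1 / zz (8 m)` -/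
def Idx (w : ℚ) : Prop := ∃ m : ℤ, m ≠ 0 ∧ w = 1 / zz (8 * m)

/-- the least order of a pole -/
noncomputable def dl (p : ℕ) : ℕ := dd p (rk p)

theorem dl_pos {p : ℕ} (hp : p.Prime) (h : rk p ≠ 0) : 1 ≤ dl p :=
  (val_zz hp (n := (rk p : ℤ)) (by exact_mod_cast h) (dvd_refl _)).2.2

theorem rk11_ne : rk 11 ≠ 0 := by rw [rk_eleven]; norm_num
theorem rk29_ne : rk 29 ≠ 0 := by rw [rk_29]; norm_num

theorem vrk11 : padicValNat 11 (rk 11) = 0 := by
  rw [rk_eleven]; exact padicValNat.eq_zero_of_not_dvd (by norm_num)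

theorem vrk29 : padicValNat 29 (rk 29) = 0 := by
  rw [rk_29]; exact padicValNat.eq_zero_of_not_dvd (by norm_num)

theorem val_w {p : ℕ} (hp : Inert p) (h0 : rk p ≠ 0) (h1 : padicValNat p (rk p) = 0) {m : ℤ}
    (hm : m ≠ 0) (k : ℕ) : padicValRat p (1 / zz (8 * m)) = 2 * (dl p + k : ℕ) ↔
      Vis p m ∧ padicValInt p m = k := by
  have hd := dl_pos hp.1 h0
  have e : padicValRat p (1 / zz (8 * m)) = - padicValRat p (zz (8 * m)) := by
    rw [one_div, val_inv hp.1]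
  rw [e]
  by_cases hv : Vis p m
  · have h2 := (val_zz_vis hp.1 hm hv).1
    have h3 := dd_eight hp hm hv
    rw [h1] at h3
    rw [h2]
    unfold dl
    constructor
    · intro h
      refine ⟨hv, ?_⟩
      push_cast at h
      omega
    · rintro ⟨-, h⟩
      push_cast
      omega
  · have h2 := val_zz_not_vis hp.1 hm hv
    constructor
    · intro h
      exfalso
      push_cast at h
      omega
    · rintro ⟨h, -⟩
      exact absurd h hv

theorem vis11_iff (m : ℤ) : Vis 11 m ↔ (5 : ℤ) ∣ m := by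
  unfold Vis
  rw [rk_eleven]
  push_cast
  omega

theorem vis29_iff (m : ℤ) : Vis 29 m ↔ (7 : ℤ) ∣ m := by
  unfold Vis
  rw [rk_29]
  push_cast
  omega

/-- `w` is the value at an index whose valuations at `11` and `29` are those of `X` and `Y`,
shifted by `a` and `b` -/
def Loc (a b : ℕ) (w X Y : ℚ) : Prop :=
  Idx w ∧ EqV 11 w (X ^ 2 * 11 ^ (2 * (dl 11 + a))) ∧ EqV 29 w (Y ^ 2 * 29 ^ (2 * (dl 29 + b)))

theorem val_sq_pow {p : ℕ} (hp : p.Prime) {X : ℚ} (hX : X ≠ 0) {i : ℕ}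
    (hi : padicValRat p X = i) (k : ℕ) :
    padicValRat p (X ^ 2 * (p : ℚ) ^ (2 * k)) = 2 * (k + i : ℕ) := by
  have hp0 : (p : ℚ) ≠ 0 := by exact_mod_cast hp.ne_zero
  rw [val_mul hp (pow_ne_zero _ hX) (pow_ne_zero _ hp0), val_pow hp, val_pow hp,
    val_self_rat hp hp, if_pos rfl, hi]
  push_cast
  ring

theorem eqV_w {p : ℕ} (hp : Inert p) (h0 : rk p ≠ 0) (h1 : padicValNat p (rk p) = 0) {m : ℤ}
    (hm : m ≠ 0) {X : ℚ} (hX : X ≠ 0) {i : ℕ} (hi : padicValRat p X = i) (a : ℕ) :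
    EqV p (1 / zz (8 * m)) (X ^ 2 * (p : ℚ) ^ (2 * (dl p + a))) ↔
      Vis p m ∧ padicValInt p m = i + a := by
  have hp0 : (p : ℚ) ≠ 0 := by exact_mod_cast hp.1.ne_zero
  have hw : 1 / zz (8 * m) ≠ 0 := one_div_ne_zero (Chain.zz_ne (eight_ne hm))
  have hr : X ^ 2 * (p : ℚ) ^ (2 * (dl p + a)) ≠ 0 :=
    mul_ne_zero (pow_ne_zero _ hX) (pow_ne_zero _ hp0)
  unfold EqV
  rw [val_sq_pow hp.1 hX hi]
  have := val_w hp h0 h1 hm (i + a)
  have e : dl p + a + i = dl p + (i + a) := by ring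
  rw [e, this]
  exact ⟨fun h => h.2.2, fun h => ⟨hw, hr, h⟩⟩

theorem loc_iff {a b i j : ℕ} {w X Y : ℚ} (hX : X ≠ 0) (hY : Y ≠ 0)
    (hi : padicValRat 11 X = i) (hj : padicValRat 29 Y = j) :
    Loc a b w X Y ↔ ∃ m : ℤ, m ≠ 0 ∧ w = 1 / zz (8 * m) ∧ (35 : ℤ) ∣ m ∧
      padicValInt 11 m = i + a ∧ padicValInt 29 m = j + b := by
  unfold Loc Idx
  constructor
  · rintro ⟨⟨m, hm, rfl⟩, h1, h2⟩
    have h1' := (eqV_w inert11 rk11_ne vrk11 hm hX hi a).1 (by exact_mod_cast h1)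
    have h2' := (eqV_w inert29 rk29_ne vrk29 hm hY hj b).1 (by exact_mod_cast h2)
    have h3 := (vis11_iff m).1 h1'.1
    have h4 := (vis29_iff m).1 h2'.1
    exact ⟨m, hm, rfl, by omega, h1'.2, h2'.2⟩
  · rintro ⟨m, hm, rfl, h35, h1, h2⟩
    refine ⟨⟨m, hm, rfl⟩, ?_, ?_⟩
    · have := (eqV_w inert11 rk11_ne vrk11 hm hX hi a).2 ⟨(vis11_iff m).2 (by omega), h1⟩
      exact_mod_cast this
    · have := (eqV_w inert29 rk29_ne vrk29 hm hY hj b).2 ⟨(vis29_iff m).2 (by omega), h2⟩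
      exact_mod_cast this

/-! ### cells -/

/-- the inert primes of the cell `(i, j)` -/
def Cell (i j q : ℕ) : Prop :=
  Inert q ∧ rk q ∣ 8 * (35 * 11 ^ (i + 1) * 29 ^ (j + 1)) ∧
    padicValNat 11 (rk q) = i + 1 ∧ padicValNat 29 (rk q) = j + 1

theorem cell_exists (i j : ℕ) : ∃ q, Cell i j q := by
  have hG : Odd (((35 * 11 ^ (i + 1) * 29 ^ (j + 1) : ℕ)) : ℤ) := by
    rw [Int.odd_coe_nat]
    exact ((by decide : Odd 35).mul ((by decide : Odd 11).pow)).mul ((by decide : Odd 29).pow)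
  obtain ⟨q, h1, -, h3, -, h5, h6⟩ := core (u := 11) (v := 29) inert11 inert29 (by norm_num)
    (by norm_num) (by norm_num) (i := i) (j := j) (G := ((35 * 11 ^ (i + 1) * 29 ^ (j + 1) : ℕ)))
    hG (by
      rw [Int.natCast_dvd_natCast]
      exact ⟨35, by ring⟩)
    (by rw [rk_eleven]; rintro ⟨h, -⟩; revert h; norm_num)
    (by rw [rk_29]; rintro ⟨h, -⟩; revert h; norm_num)
  exact ⟨q, h1, by exact_mod_cast h3, h5, h6⟩

theorem Cell.unique {i j i' j' q : ℕ} (h : Cell i j q) (h' : Cell i' j' q) : i = i' ∧ j = j' := by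
  have h1 := h.2.2.1
  have h2 := h'.2.2.1
  have h3 := h.2.2.2
  have h4 := h'.2.2.2
  omega

theorem dvd_of_le {R K p i : ℕ} (hp : p.Prime) (hR : R ≠ 0) (h : R ∣ K * p ^ (i + 1))
    (hv : padicValNat p R ≤ i) : R ∣ K * p ^ i := by
  have := Fact.mk hp
  obtain ⟨R', hR'⟩ := pow_padicValNat_dvd (p := p) (n := R)
  have hnd : ¬ p ∣ R' := by
    rintro ⟨c, rfl⟩
    have : p ^ (padicValNat p R + 1) ∣ R := ⟨c, by rw [pow_succ]; rw [mul_assoc]; exact hR'⟩
    exact pow_succ_padicValNat_not_dvd hR this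
  have hc : Nat.Coprime R' (p ^ (i + 1)) :=
    Nat.Coprime.pow_right _ ((Nat.Prime.coprime_iff_not_dvd hp).2 hnd).symm
  have h1 : R' ∣ K := by
    have : R' ∣ K * p ^ (i + 1) := (Dvd.intro_left _ hR'.symm).trans h
    exact hc.dvd_of_dvd_mul_right this
  rw [hR', mul_comm]
  exact mul_dvd_mul h1 (pow_dvd_pow _ hv)

/-- visibility at an index of full valuation -/
theorem Cell.vis {i j q : ℕ} (h : Cell i j q) {m : ℤ} (h35 : (35 : ℤ) ∣ m)
    (h1 : i + 1 ≤ padicValInt 11 m) (h2 : j + 1 ≤ padicValInt 29 m) : Vis q m := by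
  have e1 : ((11 : ℤ)) ^ (i + 1) ∣ m := by
    have := (pow_dvd_pow (11 : ℤ) h1).trans (by
      have := padicValInt_dvd (p := 11) m
      exact_mod_cast this)
    exact this
  have e2 : ((29 : ℤ)) ^ (j + 1) ∣ m := by
    have := (pow_dvd_pow (29 : ℤ) h2).trans (by
      have := padicValInt_dvd (p := 29) m
      exact_mod_cast this)
    exact this
  have c1 : IsCoprime (35 : ℤ) (11 ^ (i + 1)) := by
    apply IsCoprime.pow_right
    rw [Int.isCoprime_iff_gcd_eq_one]; norm_num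
  have c2 : IsCoprime ((35 : ℤ) * 11 ^ (i + 1)) (29 ^ (j + 1)) := by
    apply IsCoprime.pow_right
    apply IsCoprime.mul_left
    · rw [Int.isCoprime_iff_gcd_eq_one]; norm_num
    · apply IsCoprime.pow_left
      rw [Int.isCoprime_iff_gcd_eq_one]; norm_num
  have h3 : ((35 : ℤ) * 11 ^ (i + 1) * 29 ^ (j + 1)) ∣ m := c2.mul_dvd (c1.mul_dvd h35 e1) e2
  unfold Vis
  have h4 : ((rk q : ℕ) : ℤ) ∣ 8 * (35 * 11 ^ (i + 1) * 29 ^ (j + 1)) := by
    exact_mod_cast h.2.1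
  exact h4.trans (mul_dvd_mul_left _ h3)

/-- a visible prime has a rank of small valuations -/
theorem val_le_of_vis {p q : ℕ} (hp : Inert p) {m : ℤ} (hm : m ≠ 0) (h : Vis q m) :
    padicValNat p (rk q) ≤ padicValInt p m := by
  have h1 := valInt_mono hp.1 (eight_ne hm) h
  rwa [padicValInt.of_nat, valInt_eight hp hm] at h1

end Pool.Agent.TH588.UQ
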