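import Pool.Agent.TH588.UQ.Dioph
import Pool.Agent.Helper707.Num

/-!
# Halting of generalised Collatz maps and one universal quantifier
-/

set_option autoImplicit false

namespace Pool.Agent.TH588.UQ

open Pool.Agent.H528R2 Pool.Agent.H528R2.Chain Pool.Agent.H528R2.Dio
open Pool.Agent.Helper707.Rel (Sys)
open Pool.Agent.Helper707.Num (halts_iff_iter)

theorem val_pp {p : ℕ} (hp : p.Prime) (n : ℕ) : padicValRat p ((p : ℚ) ^ n) = n := by
  rw [val_pow hp, val_self_rat hp hp, if_pos rfl, mul_one]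

theorem val_xx {p : ℕ} (hp : p.Prime) {x : ℚ} (hx : x ≠ 0) {k : ℕ} (hk : padicValRat p x = k)
    (a e : ℕ) : padicValRat p (x ^ a * (p : ℚ) ^ e) = (a * k + e : ℕ) := by
  have hp0 : (p : ℚ) ≠ 0 := by exact_mod_cast hp.ne_zero
  rw [val_mul hp (pow_ne_zero _ hx) (pow_ne_zero _ hp0), val_pow hp, val_pp hp, hk]
  push_cast
  ring

theorem val_11 {x : ℚ} (hx : x ≠ 0) {k : ℕ} (hk : padicValRat 11 x = k)
    (a e : ℕ) : padicValRat 11 (x ^ a * 11 ^ e) = (a * k + e : ℕ) := by
  exact_mod_cast val_xx inert11.1 hx hk a e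

theorem val_29 {y : ℚ} (hy : y ≠ 0) {k : ℕ} (hk : padicValRat 29 y = k) :
    padicValRat 29 (29 * y) = (k + 1 : ℕ) := by
  have := val_xx inert29.1 hy hk 1 1
  have e : 29 * y = y ^ 1 * ((29 : ℕ) : ℚ) ^ 1 := by push_cast; ring
  rw [e, this, one_mul]

theorem val_11_pow (n : ℕ) : padicValRat 11 ((11 : ℚ) ^ n) = n := by
  exact_mod_cast val_pp inert11.1 n

theorem val_29_pow (n : ℕ) : padicValRat 29 ((29 : ℚ) ^ n) = n := by
  exact_mod_cast val_pp inert29.1 n

theorem val_29_one : padicValRat 29 (1 : ℚ) = (0 : ℕ) := by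
  rw [padicValRat.one]; rfl

/-- the relation holds for all `t` when the machine does not halt -/
theorem RR_all (Y : Sys) (N₀ : ℕ) (hm : 0 < Y.m) (h : ¬ Y.Halts N₀) (t : ℚ) :
    RR Y (11 ^ N₀) t := by
  classical
  by_cases ht : t = 0
  · exact Or.inl ht
  right
  have hH : ∀ T, Y.H (((Y.next)^[T] N₀) % Y.m) = false := by
    intro T
    rw [halts_iff_iter] at h
    simpa using fun h' => h ⟨T, h'⟩
  set N : ℕ → ℕ := fun T => (Y.next)^[T] N₀ with hN
  have hfin : ∃ T, ¬ ∃ q, Cell (N T) T q ∧ Odd (padicValRat q t) := by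
    by_contra hcon
    push Not at hcon
    choose q hq hq' using hcon
    have hinj : Function.Injective q := by
      intro a b hab
      have h1 := hq b
      rw [← hab] at h1
      exact ((hq a).unique h1).2
    have hmem : ∀ T, q T ∈ (t.num.natAbs * t.den).primeFactors := by
      intro T
      rw [Nat.mem_primeFactors]
      refine ⟨(hq T).1.1, dvd_num_or_den ?_, ?_⟩
      · intro h0
        have := hq' T
        rw [h0] at this
        exact absurd this (by decide)
      · exact mul_ne_zero (Int.natAbs_ne_zero.2 (Rat.num_ne_zero.2 ht)) t.den_nz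
    exact Set.infinite_of_injective_forall_mem hinj hmem (Finset.finite_toSet _)
  have hleast := Nat.find_spec hfin
  have hmin : ∀ T, T < Nat.find hfin → ∃ q, Cell (N T) T q ∧ Odd (padicValRat q t) := by
    intro T hT
    have := Nat.find_min hfin hT
    rwa [not_not] at this
  rcases hT : Nat.find hfin with _ | σ
  · left
    rw [hT] at hleast
    refine NM.complete ht (pow_ne_zero _ (by norm_num)) one_ne_zero (val_11_pow N₀) val_29_one ?_
    intro q hq hodd
    exact hleast ⟨q, hq, hodd⟩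
  · right
    obtain ⟨q, hq, hodd⟩ := hmin σ (by omega)
    rw [hT] at hleast
    have hx : (11 : ℚ) ^ (N σ / Y.m) ≠ 0 := pow_ne_zero _ (by norm_num)
    have hy : (29 : ℚ) ^ σ ≠ 0 := pow_ne_zero _ (by norm_num)
    have vx := val_11_pow (N σ / Y.m)
    have vy := val_29_pow σ
    refine ⟨N σ % Y.m, List.mem_range.2 (Nat.mod_lt _ hm), hH σ, 11 ^ (N σ / Y.m), 29 ^ σ,
      ⟨hx, ?_⟩, ⟨hy, ?_⟩, ?_, ?_⟩
    · rw [vx]; positivity
    · rw [vy]; positivity
    · refine MM.complete ht (mul_ne_zero (pow_ne_zero _ hx) (pow_ne_zero _ (by norm_num))) hy ?_ vy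
        hq hodd
      rw [val_11 hx vx, Nat.div_add_mod]
    · refine NM.complete (i := N (σ + 1)) (j := σ + 1) ht
        (mul_ne_zero (pow_ne_zero _ hx) (pow_ne_zero _ (by norm_num)))
        (mul_ne_zero (by norm_num) hy) ?_ (val_29 hy vy) ?_
      · rw [val_11 hx vx]
        simp only [hN, Function.iterate_succ_apply', Sys.next]
      · intro q' hq' hodd'
        exact hleast ⟨q', hq', hodd'⟩

/-- when the machine halts, the relation fails for all the rational numbers which have, at the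
inert primes, the valuations of some squarefree number, up to even numbers at the primes which do
not divide it -/
theorem RR_not (Y : Sys) (N₀ : ℕ) (h : Y.Halts N₀) :
    ∃ d : ℕ, Squarefree d ∧ ∀ t : ℚ, t ≠ 0 → (∀ q, Inert q → (q ∣ d → padicValRat q t = 1) ∧
      (¬ q ∣ d → ¬ Odd (padicValRat q t))) → ¬ RR Y (11 ^ N₀) t := by
  classical
  rw [halts_iff_iter] at h
  obtain ⟨T, hT⟩ := h
  set N : ℕ → ℕ := fun T => (Y.next)^[T] N₀ with hN
  choose q hq using fun τ => cell_exists (N τ) τ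
  set S : Finset ℕ := (Finset.range (T + 1)).image q with hS
  have hSm : ∀ p, p ∈ S ↔ ∃ τ, τ ≤ T ∧ q τ = p := by
    intro p
    rw [hS, Finset.mem_image]
    simp only [Finset.mem_range, Nat.lt_succ_iff]
  have hSp : ∀ p ∈ S, p.Prime := by
    intro p hp
    obtain ⟨τ, -, rfl⟩ := (hSm p).1 hp
    exact (hq τ).1.1
  obtain ⟨hsq, hdvd⟩ := ti_prod_primes S hSp
  refine ⟨∏ p ∈ S, p, hsq, fun t ht hval' => ?_⟩
  have hval : ∀ p, Inert p → (p ∈ S → padicValRat p t = 1) ∧
      (¬ p ∈ S → ¬ Odd (padicValRat p t)) := by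
    intro p hp
    have := hval' p hp
    rw [hdvd p hp.1] at this
    exact this
  rintro (h0 | h0 | ⟨r, hr, hHr, x, y, ⟨hx, hx'⟩, ⟨hy, hy'⟩, hM, hNM⟩)
  · exact ht h0
  · exact NM.sound ht (pow_ne_zero _ (by norm_num)) one_ne_zero (val_11_pow N₀) val_29_one
      (hq 0) ((hval _ (hq 0).1).1 ((hSm _).2 ⟨0, Nat.zero_le _, rfl⟩)) h0
  · rw [List.mem_range] at hr
    obtain ⟨k, hk⟩ := Int.eq_ofNat_of_zero_le hx'
    obtain ⟨j, hj⟩ := Int.eq_ofNat_of_zero_le hy'
    obtain ⟨p, hp, hodd⟩ := MM.sound ht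
      (mul_ne_zero (pow_ne_zero _ hx) (pow_ne_zero _ (by norm_num))) hy
      (val_11 hx hk Y.m r) hj (by
        intro p hp hodd
        by_cases hc : p ∈ S
        · obtain ⟨τ, -, rfl⟩ := (hSm p).1 hc
          exact ⟨(hval _ hp).1 hc, N τ, τ, hq τ⟩
        · exact absurd hodd ((hval p hp).2 hc)) hM
    have hc : p ∈ S := by
      by_contra hc
      exact (hval p hp.1).2 hc hodd
    obtain ⟨τ, hτ, rfl⟩ := (hSm p).1 hc
    obtain ⟨e1, e2⟩ := (hq τ).unique hp
    subst e2
    have hmod : N τ % Y.m = r := by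
      rw [e1, Nat.mul_add_mod, Nat.mod_eq_of_lt hr]
    have hdiv : N τ / Y.m = k := by
      rw [e1, Nat.mul_add_div (by omega), Nat.div_eq_of_lt hr, add_zero]
    have hne : τ ≠ T := by
      rintro rfl
      have : Y.H (N τ % Y.m) = true := hT
      rw [hmod, hHr] at this
      exact Bool.false_ne_true this
    have hnext : N (τ + 1) = Y.a r * k + Y.e r := by
      have : N (τ + 1) = Y.next (N τ) := Function.iterate_succ_apply' _ _ _
      rw [this, Sys.next, hmod, hdiv]
    refine NM.sound ht (mul_ne_zero (pow_ne_zero _ hx) (pow_ne_zero _ (by norm_num)))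
      (mul_ne_zero (by norm_num) hy) (val_11 hx hk _ _) (val_29 hy hj) (q := q (τ + 1)) ?_ ?_ hNM
    · rw [← hnext]; exact hq (τ + 1)
    · exact (hval _ (hq _).1).1 ((hSm _).2 ⟨τ + 1, by omega, rfl⟩)

end Pool.Agent.TH588.UQ
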