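import Pool.Agent.TH588.UQ.Loc

/-!
# Membership of a cell in the set coded by a rational number
-/

set_option autoImplicit false

namespace Pool.Agent.TH588.UQ

open Pool.Agent.H528R2 Pool.Agent.H528R2.Chain Pool.Agent.H528R2.Dio

/-- no prime of the cell located by `X, Y` divides `t` an odd number of times -/
def NM (t X Y : ℚ) : Prop := ∃ w w₁ w₂ : ℚ, Loc 1 1 w X Y ∧ Loc 0 1 w₁ X Y ∧ Loc 1 0 w₂ X Y ∧
  Test t (hst t w 1 * nrm w₁ * nrm w₂)

/-- the inert primes of odd valuation in `s` have odd valuation in `t` -/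
def Sub (s t : ℚ) : Prop := ∃ x : ℚ, Test s x ∧ Test (s * t) (1 - x)

/-- a prime of the cell located by `X, Y` divides `t` an odd number of times -/
def MM (t X Y : ℚ) : Prop := ∃ s w w₁ w₂ : ℚ, s ≠ 0 ∧ NN s ∧ Sub s t ∧
  Loc 1 1 w X Y ∧ Loc 0 1 w₁ X Y ∧ Loc 1 0 w₂ X Y ∧
  Test s w ∧ Test s (hst t w₁ 1) ∧ Test s (hst t w₂ 1)

/-! ### the exemption factor -/

theorem w_ne {m : ℤ} (hm : m ≠ 0) : 1 / zz (8 * m) ≠ 0 :=
  one_div_ne_zero (Chain.zz_ne (eight_ne hm))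

theorem val_w_vis {q : ℕ} (hq : q.Prime) {m : ℤ} (hm : m ≠ 0) (h : Vis q m) :
    2 ≤ padicValRat q (1 / zz (8 * m)) := by
  have h1 := val_zz_vis hq hm h
  rw [one_div, val_inv hq, h1.1]
  have := h1.2.2
  omega

theorem val_w_not_vis {q : ℕ} (hq : q.Prime) {m : ℤ} (hm : m ≠ 0) (h : ¬ Vis q m) :
    padicValRat q (1 / zz (8 * m)) ≤ 0 := by
  have h1 := val_zz_not_vis hq hm h
  rw [one_div, val_inv hq]
  omega

theorem vge_hst {q : ℕ} (hq : Inert q) {t w : ℚ} (ht : t ≠ 0) (hw : w ≠ 0) :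
    Vge q 0 (hst t w 1) := by
  right
  rw [(val_hst hq ht hw one_ne_zero).2]
  omega

theorem hst_of_not_vis {q : ℕ} (hq : Inert q) {t : ℚ} (ht : t ≠ 0) {m : ℤ} (hm : m ≠ 0)
    (hodd : Odd (padicValRat q t)) (h : ¬ Vis q m) : Vge q 1 (hst t (1 / zz (8 * m)) 1) := by
  right
  rw [(val_hst hq ht (w_ne hm) one_ne_zero).2, padicValRat.one]
  have h1 := val_w_not_vis hq.1 hm h
  have h2 : padicValRat q t ≠ 0 := by
    intro h0; rw [h0] at hodd; exact absurd hodd (by decide)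
  have h3 : 1 ≤ |padicValRat q t| := Int.one_le_abs h2
  omega

theorem not_hst_of_vis {q : ℕ} (hq : Inert q) {t : ℚ} (ht : t ≠ 0) {m : ℤ} (hm : m ≠ 0)
    (hv : padicValRat q t = 1) (h : Vis q m) : ¬ Vge q 1 (hst t (1 / zz (8 * m)) 1) := by
  have h0 := val_hst hq ht (w_ne hm) one_ne_zero
  rintro (h1 | h1)
  · exact h0.1 h1
  · rw [h0.2, padicValRat.one, hv] at h1
    have h2 := val_w_vis hq.1 hm h
    have h3 : |(1 : ℤ)| = 1 := rfl
    rw [h3] at h1
    omega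

theorem vge_one_prod3 {q : ℕ} (hq : q.Prime) {a b c : ℚ} (ha : Vge q 0 a) (hb : Vge q 0 b)
    (hc : Vge q 0 c) : Vge q 1 (a * b * c) ↔ Vge q 1 a ∨ Vge q 1 b ∨ Vge q 1 c := by
  have h := vge_one_list_prod hq [a, b, c] (by simp [ha, hb, hc])
  simp only [List.prod_cons, List.prod_nil, mul_one, List.mem_cons, List.not_mem_nil, or_false,
    exists_eq_or_imp, exists_eq_left] at h
  rw [mul_assoc]
  exact h

/-! ### the canonical indices -/

theorem idx_val (a b : ℕ) : (35 * 11 ^ a * 29 ^ b : ℤ) ≠ 0 ∧ (35 : ℤ) ∣ 35 * 11 ^ a * 29 ^ b ∧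
    padicValInt 11 (35 * 11 ^ a * 29 ^ b) = a ∧ padicValInt 29 (35 * 11 ^ a * 29 ^ b) = b := by
  have f11 := Fact.mk inert11.1
  have f29 := Fact.mk inert29.1
  have h11 : (11 : ℤ) ^ a ≠ 0 := by positivity
  have h29 : (29 : ℤ) ^ b ≠ 0 := by positivity
  have h35 : (35 : ℤ) ≠ 0 := by norm_num
  have e1 : padicValInt 11 35 = 0 := padicValInt.eq_zero_of_not_dvd (by norm_num)
  have e2 : padicValInt 29 35 = 0 := padicValInt.eq_zero_of_not_dvd (by norm_num)
  have p1 : padicValInt 11 ((11 : ℤ) ^ a) = a := by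
    have : ((11 : ℤ) ^ a) = ((11 ^ a : ℕ) : ℤ) := by push_cast; rfl
    rw [this, padicValInt.of_nat, padicValNat.prime_pow]
  have p2 : padicValInt 29 ((29 : ℤ) ^ b) = b := by
    have : ((29 : ℤ) ^ b) = ((29 ^ b : ℕ) : ℤ) := by push_cast; rfl
    rw [this, padicValInt.of_nat, padicValNat.prime_pow]
  have p3 : padicValInt 11 ((29 : ℤ) ^ b) = 0 := by
    apply padicValInt.eq_zero_of_not_dvd
    intro h
    have h' : 11 ∣ 29 ^ b := by exact_mod_cast h
    have := inert11.1.dvd_of_dvd_pow h'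
    revert this; norm_num
  have p4 : padicValInt 29 ((11 : ℤ) ^ a) = 0 := by
    apply padicValInt.eq_zero_of_not_dvd
    intro h
    have h' : 29 ∣ 11 ^ a := by exact_mod_cast h
    have := inert29.1.dvd_of_dvd_pow h'
    revert this; norm_num
  refine ⟨mul_ne_zero (mul_ne_zero h35 h11) h29, ⟨11 ^ a * 29 ^ b, by ring⟩, ?_, ?_⟩
  · rw [padicValInt.mul (mul_ne_zero h35 h11) h29, padicValInt.mul h35 h11, e1, p1, p3]
    omega
  · rw [padicValInt.mul (mul_ne_zero h35 h11) h29, padicValInt.mul h35 h11, e2, p2, p4]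
    omega

theorem loc_canon {i j : ℕ} {X Y : ℚ} (hX : X ≠ 0) (hY : Y ≠ 0)
    (hi : padicValRat 11 X = i) (hj : padicValRat 29 Y = j) (a b : ℕ) :
    Loc a b (1 / zz (8 * (35 * 11 ^ (i + a) * 29 ^ (j + b)))) X Y := by
  obtain ⟨h1, h2, h3, h4⟩ := idx_val (i + a) (j + b)
  exact (loc_iff hX hY hi hj).2 ⟨_, h1, rfl, h2, h3, h4⟩

/-! ### non-membership -/

theorem NM.sound {i j q : ℕ} {t X Y : ℚ} (ht : t ≠ 0) (hX : X ≠ 0) (hY : Y ≠ 0)
    (hi : padicValRat 11 X = i) (hj : padicValRat 29 Y = j) (hq : Cell i j q)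
    (hv : padicValRat q t = 1) : ¬ NM t X Y := by
  rintro ⟨w, w₁, w₂, h, h1, h2, hT⟩
  obtain ⟨m, hm, rfl, m35, m11, m29⟩ := (loc_iff hX hY hi hj).1 h
  obtain ⟨m₁, hm₁, rfl, -, m₁11, m₁29⟩ := (loc_iff hX hY hi hj).1 h1
  obtain ⟨m₂, hm₂, rfl, -, m₂11, m₂29⟩ := (loc_iff hX hY hi hj).1 h2
  have h3 := (test_iff ht).1 hT q hq.1 (by rw [hv]; exact odd_one)
  rw [vge_one_prod3 hq.1.1 (vge_hst hq.1 ht (w_ne hm)) (vge_nrm hq.1 _) (vge_nrm hq.1 _),
    vge_one_nrm hq.1, vge_one_nrm hq.1, inv_zz_iff hq.1.1 hm₁, inv_zz_iff hq.1.1 hm₂] at h3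
  rcases h3 with h3 | h3 | h3
  · exact not_hst_of_vis hq.1 ht hm hv (hq.vis m35 (by omega) (by omega)) h3
  · have := val_le_of_vis inert11 hm₁ h3
    rw [hq.2.2.1] at this
    omega
  · have := val_le_of_vis inert29 hm₂ h3
    rw [hq.2.2.2] at this
    omega

theorem NM.complete {i j : ℕ} {t X Y : ℚ} (ht : t ≠ 0) (hX : X ≠ 0) (hY : Y ≠ 0)
    (hi : padicValRat 11 X = i) (hj : padicValRat 29 Y = j)
    (h : ∀ q, Cell i j q → ¬ Odd (padicValRat q t)) : NM t X Y := by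
  refine ⟨_, _, _, loc_canon hX hY hi hj 1 1, loc_canon hX hY hi hj 0 1,
    loc_canon hX hY hi hj 1 0, ?_⟩
  rw [test_iff ht]
  intro q hq hodd
  obtain ⟨n1, -, -, -⟩ := idx_val (i + 1) (j + 1)
  obtain ⟨n2, -, -, -⟩ := idx_val (i + 0) (j + 1)
  obtain ⟨n3, -, -, -⟩ := idx_val (i + 1) (j + 0)
  rw [vge_one_prod3 hq.1 (vge_hst hq ht (w_ne n1)) (vge_nrm hq _) (vge_nrm hq _),
    vge_one_nrm hq, vge_one_nrm hq, inv_zz_iff hq.1 n2, inv_zz_iff hq.1 n3]
  by_cases hvis : Vis q (35 * 11 ^ (i + 1) * 29 ^ (j + 1))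
  · have hd : rk q ∣ 8 * (35 * 11 ^ (i + 1) * 29 ^ (j + 1)) := by
      unfold Vis at hvis
      exact_mod_cast hvis
    have hr0 : rk q ≠ 0 := by
      intro h0
      rw [h0] at hd
      exact absurd (zero_dvd_iff.1 hd) (by positivity)
    have b1 := val_le_of_vis inert11 n1 hvis
    have b2 := val_le_of_vis inert29 n1 hvis
    rw [(idx_val (i + 1) (j + 1)).2.2.1] at b1
    rw [(idx_val (i + 1) (j + 1)).2.2.2] at b2
    by_cases c1 : padicValNat 11 (rk q) ≤ i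
    · right; left
      have e : 8 * (35 * 11 ^ (i + 1) * 29 ^ (j + 1)) = (8 * 35 * 29 ^ (j + 1)) * 11 ^ (i + 1) := by
        ring
      rw [e] at hd
      have := dvd_of_le inert11.1 hr0 hd c1
      have e' : (8 * 35 * 29 ^ (j + 1)) * 11 ^ i = 8 * (35 * 11 ^ (i + 0) * 29 ^ (j + 1)) := by
        ring
      rw [e'] at this
      unfold Vis
      exact_mod_cast this
    · by_cases c2 : padicValNat 29 (rk q) ≤ j
      · right; right
        have e : 8 * (35 * 11 ^ (i + 1) * 29 ^ (j + 1)) =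
          (8 * 35 * 11 ^ (i + 1)) * 29 ^ (j + 1) := by ring
        rw [e] at hd
        have := dvd_of_le inert29.1 hr0 hd c2
        have e' : (8 * 35 * 11 ^ (i + 1)) * 29 ^ j = 8 * (35 * 11 ^ (i + 1) * 29 ^ (j + 0)) := by
          ring
        rw [e'] at this
        unfold Vis
        exact_mod_cast this
      · exfalso
        exact h q ⟨hq, hd, by omega, by omega⟩ hodd
  · left
    exact hst_of_not_vis hq ht n1 hodd hvis

/-! ### inclusion -/

theorem Sub.sound {s t : ℚ} (hs : s ≠ 0) (ht : t ≠ 0) (h : Sub s t) {q : ℕ} (hq : Inert q)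
    (hodd : Odd (padicValRat q s)) : Odd (padicValRat q t) := by
  obtain ⟨x, h1, h2⟩ := h
  by_contra hcon
  rw [Int.not_odd_iff_even] at hcon
  have h3 := (test_iff hs).1 h1 q hq hodd
  have h4 := (test_iff (mul_ne_zero hs ht)).1 h2 q hq (by
    rw [val_mul hq.1 hs ht]; exact hodd.add_even hcon)
  have h5 := Vge.add hq.1 h3 h4
  have h6 : x + (1 - x) = 1 := by ring
  rw [h6] at h5
  have := h5.le one_ne_zero
  rw [padicValRat.one] at this
  omega

theorem dvd_num_or_den {t : ℚ} {p : ℕ} (h : padicValRat p t ≠ 0) :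
    p ∣ t.num.natAbs * t.den := by
  by_contra hcon
  apply h
  unfold padicValRat padicValInt
  rw [padicValNat.eq_zero_of_not_dvd (fun h => hcon (h.mul_right _)),
    padicValNat.eq_zero_of_not_dvd (fun h => hcon (h.mul_left _))]
  rfl

theorem vge_one_of_dvd {p : ℕ} (hp : p.Prime) {n : ℤ} (h : (p : ℤ) ∣ n) : Vge p 1 (n : ℚ) := by
  have := Fact.mk hp
  by_cases hn : n = 0
  · left; rw [hn]; rfl
  · right
    rw [padicValRat.of_int]
    obtain ⟨c, rfl⟩ := h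
    have hc : c ≠ 0 := by rintro rfl; simp at hn
    have hp0 : (p : ℤ) ≠ 0 := by exact_mod_cast hp.ne_zero
    rw [padicValInt.mul hp0 hc, padicValInt.self hp.one_lt]
    push_cast
    omega

theorem Sub.complete {s t : ℚ} (hs : s ≠ 0) (ht : t ≠ 0) {q : ℕ} (hq : Inert q)
    (h : ∀ p, Inert p → (Odd (padicValRat p s) ↔ p = q)) (hodd : Odd (padicValRat q t)) :
    Sub s t := by
  set P : ℕ := ∏ p ∈ ((t.num.natAbs * t.den).primeFactors.erase q), p with hP
  have hcop : Nat.Coprime q P := by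
    rw [hP]
    apply Nat.Coprime.prod_right
    intro p hp
    rw [Finset.mem_erase, Nat.mem_primeFactors] at hp
    exact (Nat.coprime_primes hq.1 hp.2.1).2 (Ne.symm hp.1)
  obtain ⟨u, v, huv⟩ := Nat.isCoprime_iff_coprime.2 hcop
  refine ⟨((u * q : ℤ) : ℚ), ?_, ?_⟩
  · rw [test_iff hs]
    intro p hp hp'
    rw [(h p hp).1 hp']
    exact vge_one_of_dvd hq.1 (dvd_mul_left _ _)
  · rw [test_iff (mul_ne_zero hs ht)]
    intro p hp hp'
    rw [val_mul hp.1 hs ht] at hp'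
    have hpq : p ≠ q := by
      rintro rfl
      have h1 := (h p hp).2 rfl
      have h2 := h1.add_odd hodd
      rw [← Int.not_odd_iff_even] at h2
      exact h2 hp'
    have hpt : padicValRat p t ≠ 0 := by
      intro h0
      rw [h0, add_zero] at hp'
      exact hpq ((h p hp).1 hp')
    have e : (1 : ℚ) - ((u * q : ℤ) : ℚ) = ((v * P : ℤ) : ℚ) := by
      have : (1 : ℤ) - u * q = v * P := by linarith
      exact_mod_cast this
    rw [e]
    apply vge_one_of_dvd hp.1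
    apply Dvd.dvd.mul_left
    rw [Int.natCast_dvd_natCast, hP]
    apply Finset.dvd_prod_of_mem (f := fun p => p)
    rw [Finset.mem_erase, Nat.mem_primeFactors]
    refine ⟨hpq, hp.1, dvd_num_or_den hpt, ?_⟩
    exact mul_ne_zero (Int.natAbs_ne_zero.2 (Rat.num_ne_zero.2 ht)) t.den_nz

/-! ### the witnesses -/

theorem exists_wit {q : ℕ} (hq : Inert q) : ∃ s : ℤ, s ≠ 0 ∧ s % 16 = 11 ∧
    ∀ p, Inert p → (Odd (padicValRat p (s : ℚ)) ↔ p = q) := by
  have key : ∀ e : ℤ, (e = 1 ∨ e = 9 ∨ e = -1 ∨ e = -9) → ∀ p, Inert p →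
      (Odd (padicValRat p ((e * q : ℤ) : ℚ)) ↔ p = q) := by
    intro e he p hp
    have := Fact.mk hp.1
    have hq0 : (q : ℚ) ≠ 0 := by exact_mod_cast hq.1.ne_zero
    have he0 : (e : ℚ) ≠ 0 := by
      rcases he with rfl | rfl | rfl | rfl <;> norm_num
    have h9 : Even (padicValRat p (e : ℚ)) := by
      have h9' : padicValRat p (9 : ℚ) = 2 * padicValRat p (3 : ℚ) := by
        have : (9 : ℚ) = 3 ^ 2 := by norm_num
        rw [this, padicValRat.pow]
        norm_num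
      rcases he with rfl | rfl | rfl | rfl
      · rw [Int.cast_one, padicValRat.one]; exact Even.zero
      · have : ((9 : ℤ) : ℚ) = 9 := by norm_num
        rw [this, h9']; exact even_two_mul _
      · have : ((-1 : ℤ) : ℚ) = -1 := by norm_num
        rw [this, padicValRat.neg, padicValRat.one]; exact Even.zero
      · have : ((-9 : ℤ) : ℚ) = -9 := by norm_num
        rw [this, padicValRat.neg, h9']; exact even_two_mul _
    rw [Int.cast_mul, val_mul hp.1 he0 (by exact_mod_cast hq.1.ne_zero)]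
    have e2 : (((q : ℕ) : ℤ) : ℚ) = ((q : ℕ) : ℚ) := by norm_cast
    rw [e2, val_self_rat hp.1 hq.1]
    split_ifs with hc
    · simp only [hc, iff_true]
      rw [hc] at h9
      exact h9.add_one
    · simp only [hc, iff_false, add_zero]
      rw [Int.not_odd_iff_even]
      exact h9
  have hq0 : (q : ℤ) ≠ 0 := by exact_mod_cast hq.1.ne_zero
  have hcase : q % 16 = 11 ∨ q % 16 = 3 ∨ q % 16 = 5 ∨ q % 16 = 13 := by
    have := hq.2; omega
  rcases hcase with h | h | h | h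
  · exact ⟨1 * q, mul_ne_zero (by norm_num) hq0, by omega, key 1 (by simp)⟩
  · exact ⟨9 * q, mul_ne_zero (by norm_num) hq0, by omega, key 9 (by simp)⟩
  · exact ⟨-1 * q, mul_ne_zero (by norm_num) hq0, by omega, key (-1) (by simp)⟩
  · exact ⟨-9 * q, mul_ne_zero (by norm_num) hq0, by omega, key (-9) (by simp)⟩

/-! ### membership -/

theorem MM.complete {i j q : ℕ} {t X Y : ℚ} (ht : t ≠ 0) (hX : X ≠ 0) (hY : Y ≠ 0)
    (hi : padicValRat 11 X = i) (hj : padicValRat 29 Y = j) (hq : Cell i j q)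
    (hodd : Odd (padicValRat q t)) : MM t X Y := by
  obtain ⟨s, hs0, hs, hsp⟩ := exists_wit hq.1
  have hs0' : (s : ℚ) ≠ 0 := by exact_mod_cast hs0
  obtain ⟨n1, k1, v1, v1'⟩ := idx_val (i + 1) (j + 1)
  obtain ⟨n2, -, v2, -⟩ := idx_val (i + 0) (j + 1)
  obtain ⟨n3, -, -, v3⟩ := idx_val (i + 1) (j + 0)
  refine ⟨(s : ℚ), _, _, _, hs0', NN.of_int hs, Sub.complete hs0' ht hq.1 hsp hodd,
    loc_canon hX hY hi hj 1 1, loc_canon hX hY hi hj 0 1, loc_canon hX hY hi hj 1 0, ?_, ?_, ?_⟩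
  · rw [test_iff hs0']
    intro p hp hp'
    rw [(hsp p hp).1 hp', inv_zz_iff hq.1.1 n1]
    exact hq.vis k1 (by omega) (by omega)
  · rw [test_iff hs0']
    intro p hp hp'
    rw [(hsp p hp).1 hp']
    refine hst_of_not_vis hq.1 ht n2 hodd ?_
    intro hvis
    have := val_le_of_vis inert11 n2 hvis
    rw [hq.2.2.1] at this
    omega
  · rw [test_iff hs0']
    intro p hp hp'
    rw [(hsp p hp).1 hp']
    refine hst_of_not_vis hq.1 ht n3 hodd ?_
    intro hvis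
    have := val_le_of_vis inert29 n3 hvis
    rw [hq.2.2.2] at this
    omega

theorem MM.sound {i j : ℕ} {t X Y : ℚ} (ht : t ≠ 0) (hX : X ≠ 0) (hY : Y ≠ 0)
    (hi : padicValRat 11 X = i) (hj : padicValRat 29 Y = j)
    (hsf : ∀ q, Inert q → Odd (padicValRat q t) → padicValRat q t = 1 ∧ ∃ i' j', Cell i' j' q)
    (h : MM t X Y) : ∃ q, Cell i j q ∧ Odd (padicValRat q t) := by
  obtain ⟨s, w, w₁, w₂, hs, hN, hS, h0, h1, h2, hT, hT1, hT2⟩ := h
  obtain ⟨m, hm, rfl, m35, m11, m29⟩ := (loc_iff hX hY hi hj).1 h0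
  obtain ⟨m₁, hm₁, rfl, m₁35, m₁11, m₁29⟩ := (loc_iff hX hY hi hj).1 h1
  obtain ⟨m₂, hm₂, rfl, m₂35, m₂11, m₂29⟩ := (loc_iff hX hY hi hj).1 h2
  obtain ⟨-, q, hq, hqs⟩ := hN.sound
  have hqt := hS.sound hs ht hq hqs
  obtain ⟨hv, i', j', hc⟩ := hsf q hq hqt
  have g0 := (test_iff hs).1 hT q hq hqs
  have g1 := (test_iff hs).1 hT1 q hq hqs
  have g2 := (test_iff hs).1 hT2 q hq hqs
  rw [inv_zz_iff hq.1 hm] at g0
  have g1' : ¬ Vis q m₁ := fun hvis => not_hst_of_vis hq ht hm₁ hv hvis g1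
  have g2' : ¬ Vis q m₂ := fun hvis => not_hst_of_vis hq ht hm₂ hv hvis g2
  have b1 := val_le_of_vis inert11 hm g0
  have b2 := val_le_of_vis inert29 hm g0
  rw [hc.2.2.1] at b1
  rw [hc.2.2.2] at b2
  have c1 : ¬ i' + 1 ≤ i := fun hle => g1' (hc.vis m₁35 (by omega) (by omega))
  have c2 : ¬ j' + 1 ≤ j := fun hle => g2' (hc.vis m₂35 (by omega) (by omega))
  have e1 : i' = i := by omega
  have e2 : j' = j := by omega
  subst e1 e2
  exact ⟨q, hc, hqt⟩

end Pool.Agent.TH588.UQ
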